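import Mathlib
import Pool.Agent.W42.RG.Defs

set_option autoImplicit false
set_option linter.unusedSectionVars false
set_option linter.unusedVariables false

/-!
The shearing estimate for an automorphism which normalises a Lie group action.
-/

namespace Pool.Agent.W933.LX

open Finset Filter Topology MeasureTheory Pool.Agent.W42.RN Pool.Agent.W42.RL Pool.Agent.W42.RG

variable {X : Type} [MeasurableSpace X]
variable {𝔤 : Type} [LieRing 𝔤] [LieAlgebra ℝ 𝔤] [FiniteDimensional ℝ 𝔤] [TopologicalSpace 𝔤]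
  [IsTopologicalAddGroup 𝔤] [ContinuousSMul ℝ 𝔤] [T2Space 𝔤]
variable {μ : Measure X} [IsProbabilityMeasure μ] {E : 𝔤 → X → X}

theorem iter_conj' {S : X → X} (hS : MeasurePreserving S μ μ) (B : 𝔤 ≃ₗ[ℝ] 𝔤)
    (h : ∀ Y, Same μ (S ∘ E Y) (E (B Y) ∘ S)) (n : ℕ) (Y : 𝔤) :
    Same μ (S^[n] ∘ E Y) (E ((B ^ n) Y) ∘ S^[n]) := by
  induction n with
  | zero =>
    intro A hA
    exact EventuallyEq.refl _ _
  | succ n ih =>
    have g1 : Same μ (S^[n + 1] ∘ E Y) (S ∘ (E ((B ^ n) Y) ∘ S^[n])) := by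
      rw [Function.iterate_succ']
      exact ih.left hS.measurable
    have g2 : Same μ ((S ∘ E ((B ^ n) Y)) ∘ S^[n])
        ((E (B ((B ^ n) Y)) ∘ S) ∘ S^[n]) := (h _).right (hS.iterate n)
    have e : B ((B ^ n) Y) = (B ^ (n + 1)) Y := by
      rw [pow_succ']; rfl
    rw [e] at g2
    have g3 := g1.trans g2
    rw [Function.iterate_succ'] at g3 ⊢
    exact g3

theorem symm_conj' {T : X ≃ᵐ X} (hT : MeasurePreserving T μ μ) (B : 𝔤 ≃ₗ[ℝ] 𝔤)
    (h : ∀ Y, Same μ (T ∘ E Y) (E (B Y) ∘ T)) (Y : 𝔤) :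
    Same μ (T.symm ∘ E Y) (E (B⁻¹ Y) ∘ T.symm) := by
  have hT' : MeasurePreserving T.symm μ μ := hT.symm T
  have h1 := h (B⁻¹ Y)
  have e : B (B⁻¹ Y) = Y := B.apply_symm_apply Y
  rw [e] at h1
  have g1 := (h1.symm.left (R := T.symm) T.symm.measurable).right hT'
  have e1 : (T.symm ∘ (E Y ∘ T)) ∘ T.symm = T.symm ∘ E Y := by
    funext p
    simp only [Function.comp_apply, T.apply_symm_apply]
  have e2 : (T.symm ∘ (T ∘ E (B⁻¹ Y))) ∘ T.symm = E (B⁻¹ Y) ∘ T.symm := by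
    funext p
    simp only [Function.comp_apply, T.symm_apply_apply]
  rw [e1, e2] at g1
  exact g1

theorem pw_conj' {T : X ≃ᵐ X} (hT : MeasurePreserving T μ μ) (B : 𝔤 ≃ₗ[ℝ] 𝔤)
    (h : ∀ Y, Same μ (T ∘ E Y) (E (B Y) ∘ T)) (n : ℤ) (Y : 𝔤) :
    Same μ (pw T n ∘ E Y) (E ((B ^ n) Y) ∘ pw T n) := by
  have hT' : MeasurePreserving T.symm μ μ := hT.symm T
  obtain ⟨k, rfl | rfl⟩ := n.eq_nat_or_neg
  · rw [pw_nat]
    have := iter_conj' hT B h k Y
    rwa [zpow_natCast]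
  · rw [pw_neg]
    have := iter_conj' hT' B⁻¹ (symm_conj' hT B h) k Y
    rwa [zpow_neg, zpow_natCast, ← inv_pow]

theorem t_SHEAR (h : S_POLY) : S_SHEAR := by
  intro X _ 𝔤 _ _ _ _ _ _ _ μ _ E hE T hT A hTA K hAK Y d hd hdK
  obtain ⟨q, C₀, hq1₀, hq2₀, hq3⟩ := h 𝔤 A K.toSubmodule hAK Y d hd hdK
  set C : ℝ := max C₀ 0 with hC
  have hC0 : 0 ≤ C := le_max_right _ _
  have hpos : ∀ n : ℤ, (0 : ℝ) ≤ (1 + |(n : ℝ)|) ^ (d - 1) := fun n => by positivity
  have hq1 : ∀ l < d, ∀ n : ℤ, |q l n| ≤ C * (1 + |(n : ℝ)|) ^ (d - 1) := fun l hl n =>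
    (hq1₀ l hl n).trans (mul_le_mul_of_nonneg_right (le_max_left _ _) (hpos n))
  have hq2 : ∀ n : ℤ, |q d n - (n : ℝ) ^ d / d.factorial| ≤ C * (1 + |(n : ℝ)|) ^ (d - 1) := fun n =>
    (hq2₀ n).trans (mul_le_mul_of_nonneg_right (le_max_left _ _) (hpos n))
  intro f hf U δ hU hδ
  have hfB : Bd f := ⟨hf.1.mono (mK_le μ E _) le_rfl, hf.2⟩
  set N := nA A with hN
  set W := (N ^ d) Y with hW
  have hfac : (0 : ℝ) < d.factorial := by positivity
  set Φ : (Fin (d + 1) → ℝ) → ℝ → 𝔤 := fun t s => ∑ l : Fin (d + 1), t l • (N ^ (l : ℕ)) Y + s • W with hΦ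
  have hΦc : Continuous fun q : (Fin (d + 1) → ℝ) × ℝ => Φ q.1 q.2 := by
    simp only [hΦ]
    refine Continuous.add ?_ (continuous_snd.smul continuous_const)
    refine continuous_finsetSum _ fun l _ => ?_
    exact ((continuous_apply l).comp continuous_fst).smul continuous_const
  have hev : ∀ᶠ t in 𝓝 (0 : Fin (d + 1) → ℝ), ∀ s ∈ Set.Icc (-U) U,
      ∫ p, ‖f (E (Φ t s) p) - f (E (s • W) p)‖ ∂μ < δ := by
    apply isCompact_Icc.eventually_forall_of_forall_eventually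
    intro s₀ _
    have h0 : Φ 0 s₀ = s₀ • W := by simp [hΦ]
    have h1 : Tendsto (fun q : (Fin (d + 1) → ℝ) × ℝ => Φ q.1 q.2) (𝓝 (0, s₀)) (𝓝 (s₀ • W)) := by
      have := hΦc.tendsto (0, s₀)
      simp only [h0] at this
      exact this
    have h2 : Tendsto (fun q : (Fin (d + 1) → ℝ) × ℝ => q.2 • W) (𝓝 (0, s₀)) (𝓝 (s₀ • W)) :=
      (continuous_snd.smul continuous_const).tendsto _
    have h3 := ((hE.cont f hfB (s₀ • W)).comp h1).add ((hE.cont f hfB (s₀ • W)).comp h2)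
    rw [add_zero] at h3
    filter_upwards [h3.eventually_lt_const hδ] with q hq
    refine lt_of_le_of_lt ?_ hq
    have b1 : Bd fun p => f (E (Φ q.1 q.2) p) := hfB.comp (hE.mp _).measurable
    have b2 : Bd fun p => f (E (q.2 • W) p) := hfB.comp (hE.mp _).measurable
    have b3 : Bd fun p => f (E (s₀ • W) p) := hfB.comp (hE.mp _).measurable
    have hi1 : Integrable (fun p => ‖f (E (Φ q.1 q.2) p) - f (E (s₀ • W) p)‖) μ := (b1.int.sub b3.int).norm
    have hi2 : Integrable (fun p => ‖f (E (q.2 • W) p) - f (E (s₀ • W) p)‖) μ := (b2.int.sub b3.int).norm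
    simp only [Function.comp_apply]
    rw [← integral_add hi1 hi2]
    apply integral_mono (b1.int.sub b2.int).norm (hi1.add hi2)
    intro p
    show ‖f (E (Φ q.1 q.2) p) - f (E (q.2 • W) p)‖ ≤
      ‖f (E (Φ q.1 q.2) p) - f (E (s₀ • W) p)‖ + ‖f (E (q.2 • W) p) - f (E (s₀ • W) p)‖
    rw [norm_sub_rev (f (E (q.2 • W) p))]
    exact norm_sub_le_norm_sub_add_norm_sub _ _ _
  obtain ⟨η, hη, hball⟩ := Metric.eventually_nhds_iff.1 hev
  -- smallness of `C (1 + |n|) ^ (d - 1)`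
  obtain ⟨M, hM⟩ := exists_nat_gt (C * 2 ^ (d - 1) * (U * d.factorial) / η)
  have hM0 : (0 : ℝ) ≤ M := le_trans (by positivity) hM.le
  set M' : ℝ := (M : ℝ) + 1 with hM'
  have hM1 : (1 : ℝ) ≤ M' := by linarith
  refine ⟨η / (C * (1 + M') ^ (d - 1) + 1), by positivity, fun ε hε hεlt n hn => ?_⟩
  have hbig : ε * (C * (1 + |(n : ℝ)|) ^ (d - 1)) < η := by
    rcases le_or_gt |(n : ℝ)| M' with h2 | h2
    · have h3 : (1 + |(n : ℝ)|) ^ (d - 1) ≤ (1 + M') ^ (d - 1) :=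
        pow_le_pow_left₀ (by positivity) (by linarith) _
      calc ε * (C * (1 + |(n : ℝ)|) ^ (d - 1)) ≤ ε * (C * (1 + M') ^ (d - 1)) :=
            mul_le_mul_of_nonneg_left (mul_le_mul_of_nonneg_left h3 hC0) hε.le
        _ ≤ ε * (C * (1 + M') ^ (d - 1) + 1) := by nlinarith
        _ < η := by rwa [lt_div_iff₀ (by positivity)] at hεlt
    · have hn1 : 1 ≤ |(n : ℝ)| := hM1.trans h2.le
      have hn0 : 0 < |(n : ℝ)| := by linarith
      have h3 : (1 + |(n : ℝ)|) ^ (d - 1) ≤ 2 ^ (d - 1) * |(n : ℝ)| ^ (d - 1) := by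
        rw [← mul_pow]
        exact pow_le_pow_left₀ (by positivity) (by linarith) _
      have h4 : ε * |(n : ℝ)| ^ d ≤ U * d.factorial := by
        have h5 : |rt d n| = |(n : ℝ)| ^ d / d.factorial := by
          unfold rt
          rw [abs_div, abs_pow, abs_of_pos hfac]
        rw [h5, ← mul_div_assoc, div_le_iff₀ hfac] at hn
        exact hn
      have h6 : |(n : ℝ)| ^ d = |(n : ℝ)| ^ (d - 1) * |(n : ℝ)| := by
        rw [← pow_succ]; congr 1; omega
      have h7 : ε * |(n : ℝ)| ^ (d - 1) * |(n : ℝ)| ≤ U * d.factorial := by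
        rw [mul_assoc, ← h6]; exact h4
      have h8 : C * 2 ^ (d - 1) * (U * d.factorial) < M * η := by rwa [div_lt_iff₀ hη] at hM
      have hMn : (M : ℝ) < |(n : ℝ)| := by linarith
      have h9 : (C * 2 ^ (d - 1)) * (ε * |(n : ℝ)| ^ (d - 1)) * |(n : ℝ)| < η * |(n : ℝ)| := by
        have h91 : (C * 2 ^ (d - 1)) * (ε * |(n : ℝ)| ^ (d - 1) * |(n : ℝ)|) ≤
            (C * 2 ^ (d - 1)) * (U * d.factorial) := mul_le_mul_of_nonneg_left h7 (by positivity)
        have h92 : (M : ℝ) * η < |(n : ℝ)| * η := mul_lt_mul_of_pos_right hMn hη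
        calc (C * 2 ^ (d - 1)) * (ε * |(n : ℝ)| ^ (d - 1)) * |(n : ℝ)|
            = (C * 2 ^ (d - 1)) * (ε * |(n : ℝ)| ^ (d - 1) * |(n : ℝ)|) := by ring
          _ ≤ _ := h91
          _ < M * η := h8
          _ < |(n : ℝ)| * η := h92
          _ = _ := mul_comm _ _
      have h10 : (C * 2 ^ (d - 1)) * (ε * |(n : ℝ)| ^ (d - 1)) < η := lt_of_mul_lt_mul_right h9 hn0.le
      refine lt_of_le_of_lt ?_ h10
      calc ε * (C * (1 + |(n : ℝ)|) ^ (d - 1)) ≤ ε * (C * (2 ^ (d - 1) * |(n : ℝ)| ^ (d - 1))) :=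
            mul_le_mul_of_nonneg_left (mul_le_mul_of_nonneg_left h3 hC0) hε.le
        _ = _ := by ring
  set t : Fin (d + 1) → ℝ := fun l =>
    if (l : ℕ) < d then ε * q l n else ε * (q d n - (n : ℝ) ^ d / d.factorial) with ht
  have htη : dist t 0 < η := by
    rw [dist_zero_right, pi_norm_lt_iff hη]
    intro l
    simp only [ht]
    split_ifs with hld
    · rw [Real.norm_eq_abs, abs_mul, abs_of_pos hε]
      exact lt_of_le_of_lt (mul_le_mul_of_nonneg_left (hq1 _ hld n) hε.le) hbig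
    · rw [Real.norm_eq_abs, abs_mul, abs_of_pos hε]
      exact lt_of_le_of_lt (mul_le_mul_of_nonneg_left (hq2 n) hε.le) hbig
  have hs : ε * rt d n ∈ Set.Icc (-U) U := by
    rw [Set.mem_Icc, ← abs_le, abs_mul, abs_of_pos hε]
    exact hn
  have hfin := hball htη _ hs
  -- rewrite the integral
  set V : 𝔤 := ε • ((A ^ n) Y - ∑ l ∈ range (d + 1), q l n • (N ^ l) Y) with hV
  have hVK : V ∈ K := K.toSubmodule.smul_mem _ (hq3 n)
  have htex : (A ^ n) (ε • Y) = Φ t (ε * rt d n) + V := by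
    have e1 : Φ t (ε * rt d n) = ε • ∑ l ∈ range (d + 1), q l n • (N ^ l) Y := by
      simp only [hΦ]
      rw [Fin.sum_univ_castSucc, sum_range_succ, sum_range, smul_add, smul_sum, add_assoc]
      congr 1
      · refine sum_congr rfl fun l _ => ?_
        simp only [ht, Fin.val_castSucc, l.isLt, if_true, smul_smul]
      · simp only [ht, Fin.val_last, lt_irrefl, if_false]
        rw [← hW, ← add_smul, smul_smul]
        congr 1
        unfold rt
        ring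
    rw [e1, hV, smul_sub, map_smul]
    abel
  have hTn := (act_pw hT).mp n
  have e0 : ∀ q, ((T.toEquiv : Equiv.Perm X) ^ n) q = pw T n q := fun q => rfl
  have e1 : ∫ p, ‖f (((T.toEquiv : Equiv.Perm X) ^ n) (E (ε • Y) p)) -
      f (E ((ε * rt d n) • W) (((T.toEquiv : Equiv.Perm X) ^ n) p))‖ ∂μ =
      ∫ p, ‖f (E (Φ t (ε * rt d n)) (pw T n p)) - f (E ((ε * rt d n) • W) (pw T n p))‖ ∂μ := by
    apply integral_congr_ae
    have g1 := (pw_conj' hT A hTA n (ε • Y)).fn hfB.meas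
    have g2 := sameOn_fn (quot hE K (Φ t (ε * rt d n)) V hVK) hf.1
    have g3 := hTn.quasiMeasurePreserving.ae_eq_comp g2
    filter_upwards [g1, g3] with p k1 k2
    simp only [Function.comp_apply] at k1 k2
    rw [e0, e0, k1, htex, k2]
  have e2 : ∫ p, ‖f (E (Φ t (ε * rt d n)) (pw T n p)) - f (E ((ε * rt d n) • W) (pw T n p))‖ ∂μ =
      ∫ p, ‖f (E (Φ t (ε * rt d n)) p) - f (E ((ε * rt d n) • W) p)‖ ∂μ :=
    comp_int hTn (g := fun p => ‖f (E (Φ t (ε * rt d n)) p) - f (E ((ε * rt d n) • W) p)‖)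
      ((hfB.comp (hE.mp _).measurable).meas.sub (hfB.comp (hE.mp _).measurable).meas).norm
  rw [e1, e2]
  exact hfin.le

end Pool.Agent.W933.LX
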